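import Mathlib
import Pool.Agent.H897.CM6.Main
import Pool.Agent.H897.CM6.Up2
import Pool.Agent.H897.CM6.Sum
import Pool.Agent.H897.CM6.RedLow
import Pool.Agent.H897.CM6.Fil

/-!
# MP_6b9047_co: bounds for `R(3,q)`

`Pool.CM6.R3 q` is the largest size of a covering family in `Z_3^q`
(`Pool.CM6.IsCovering`).
-/

namespace Pool.Agent.Results.MP_6b9047_co.LayerModSix

open Pool.CM6

/-- With `m = ⌊q/2⌋ + 1` and `q ≥ 1`: `C(q,m) ≤ R(3,q) ≤ ∑_{i ≡ m (mod 6)} C(q,i)`, and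
`R(3,q) ≤ 2^q/6 + (√3)^q`. -/
theorem result : ∀ q : ℕ, 1 ≤ q → q.choose (q / 2 + 1) ≤ R3 q ∧
    R3 q ≤ ∑ i ∈ (Finset.range (q + 1)).filter (fun i => i % 6 = (q / 2 + 1) % 6), q.choose i ∧
    (R3 q : ℝ) ≤ 2 ^ q / 6 + (Real.sqrt 3) ^ q :=
  main_of up sum_main red low fil

end Pool.Agent.Results.MP_6b9047_co.LayerModSix
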